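import Mathlib
import Pool.Agent.Run7.h879.HA.Bridge
import Pool.Agent.TH170.GS.TB2
import Pool.Agent.R299.CRY2.Main

/-!
# The crystalline Tate conjecture for abelian varieties: one half of all slope types of every CM
field of degree `2 r ^ k`

Over an algebraic closure of the field with `p` elements each abelian variety is isogenous to the
reduction of an abelian variety of CM type (Honda, Tate). So an abelian variety over the field with
`p ^ a` elements is modelled by `RedAV`: a finite product of CM types `(E i, Φ i)` with Weil numbers
`π i ∈ E i` that satisfy the formula of Shimura and Taniyama; its cohomology of degree `n`, with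
coefficients in an algebraically closed field `Ω`, consists of the alternating `n`-forms on `Ω ⊗
H_1`, on which the Frobenius endomorphism acts by `π`. We fix an isomorphism `ν` of the algebraic
closure of `ℚ_p` with `ℂ`; it defines a `p`-adic valuation of `ℂ`, with the value one at `p`.

Let `K i` be finitely many CM fields, of degrees `2 g i`, that are pairwise independent: for `i ≠ k`
and all complex embeddings `φ` of `K i` and `ψ` of `K k` some automorphism of `ℂ` is the identity on
`φ (K i)` and the complex conjugation on `ψ (K k)` (this is no condition for one field). Nothing is
assumed about their Galois groups. Let `M i` be a function with integral values on the complex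
embeddings of `K i`, invariant under complex conjugation (the weights). A CM type `Φ i` of `K i` (a
choice of one element out of each complex conjugate pair of embeddings; there are `2 ^ (g i)`
types), `M i` and a real number `κ ≠ 0` prescribe the slopes `(a + κ M) / 2` (at the embeddings in
`Φ i`) and `(a - κ M) / 2` (outside of `Φ i`) of a Weil number in `K i`. If `p` splits completely in
`K i` then, by Honda and Tate, all slopes with rational values between `0` and `a` that are
symmetric in this way occur for abelian varieties. The case `M = 1`, `κ = a` is the ordinary case.
Slopes are rational, so integral weights `M` are no restriction.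

For a family of types `Φ i` let `𝒞` (`OfTypes`) be the class of the abelian varieties `Y` each of
whose factors is supersingular or has a Frobenius endomorphism some power of which is, for some `i`,
a Weil number in `K i` with the slopes prescribed by `Φ i`, `M i` and some real number `κ i ≠ 0`
(which depends only on `Y` and `i`). So `Y` is, over an algebraic closure, isogenous to a product of
powers of one abelian variety for each `i`, with the given slopes, and of a supersingular one.

The property `Q` (`Holds`) of a family of types is that **both forms of the crystalline Tate
conjecture are true for all `Y` in `𝒞`, in all degrees, over all finite extensions of the ground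
field.** This means the following. Let `K₀` be the fraction field of the ring of Witt vectors of the
field with `Q = (p ^ a) ^ s` elements, with its Frobenius automorphism `σ`; let `V₀` be the dual
space of the first crystalline cohomology group of `Y` with coefficients in `K₀`, with the
semilinear endomorphism `Ψ` dual to the crystalline Frobenius endomorphism, and the linear Frobenius
endomorphism `F₀ = Ψ ^ (a * s)`. The crystalline cohomology group `H^{2m}(Y)` is the space of
alternating forms `f` of degree `2 m` on `V₀`; the crystalline Frobenius endomorphism maps `f` to `v
↦ σ (f (Ψ v))`. Over an algebraically closed field `Ω` that contains `K₀` the space `V₀` is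
identified with `Ω ⊗ H_1`, where `F₀` is the multiplication by `π ^ s` (`IsCrystalline`; the theorem
holds for all fields `K₀` with an automorphism `σ` whose power `a * s` is trivial). Let `Cyc ⊆
H^{2m}(Y)` be the set of the classes of algebraic cycles of codimension `m` over the field with `Q`
elements. Then

* each class `f` in `H^{2m}(Y)` with `Fr f = Q ^ m f` is a linear combination of elements of `Cyc`
  with coefficients in `K₀`, and
* each class `f` that is multiplied by `p ^ m` by the crystalline Frobenius endomorphism is a linear
  combination of elements of `Cyc` with coefficients in the fixed field of `σ`, the field of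
  `p`-adic numbers.

The theorem uses of `Cyc` only that the crystalline Frobenius endomorphism multiplies its elements
by `p ^ m`, and (`ContainsAlg`) that its linear span over `K₀` contains each class `g` with `Fr g =
Q ^ m g` that belongs, over `Ω`, to the smallest system `Alg` of cohomology classes of abelian
varieties over finite fields that contains the Tate classes of degree two (which are algebraic by
the theorem of Tate) and the reductions of the Weil classes of imaginary quadratic fields on abelian
fourfolds and sixfolds of split Weil type (Markman), and that is stable under linear combinations,
cup products, pull-backs along homomorphisms and push-forwards along projections.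

**The theorem.** Let `E` be **any CM field of degree `2 g = 2 r ^ k`**, `r` a prime number, of
degree at least `16` if `r = 2`. Nothing is assumed about the Galois group of the normal closure of
`E`, and nothing about the subfields of `E`.

* (`HalfOfAll`) For all weights `M` (odd if `r = 2`; if `r` is odd then `r` may divide some, but not
  all of them) the property `Q` is true for **at least one half of all `2 ^ g` types** of `E`.
* (`MostWithWeightsOne`) For the weights `M = 1` (for instance in the ordinary case) it is true for
  at least `(1 - 1 / r) 2 ^ g` of the types.
* (`OneOfTwo`) There is a set `B` of embeddings of `E`, stable under complex conjugation, such that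
  for **every** type `Φ` it is true for `Φ` or for the symmetric difference of `Φ` and `B`.
* (`SixteenPercent`) There is a number `g₀` such that for every CM field that is **abelian over
  `ℚ`**, of any degree `2 g ≥ 2 g₀`, and all odd weights it is true for at least 16 percent of all
  `2 ^ g` types; again nothing is assumed on the subfields.

All this is proved more generally for finitely many pairwise independent fields `K i`; the
proportions are then multiplied. The bound of the starting file `AllCMFields` can say nothing for
these fields if they have many CM subfields (for instance for the multiquadratic ones, where one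
half is the best possible proportion for the types without relations).

The proof: if the types have no relations then all relations between the Frobenius eigenvalues of
`Y` come from complex conjugate pairs and from supersingular factors, and the Tate classes are
generated by classes of divisors (`TH170/GS`, `TH117` of the starting files). The proportion of the
types without relations (`NoRelations`) is at least one half by the theorem of the starting files
(`Q29/DP`, `Q29/EP`), which was used there for other conjectures.
-/

set_option autoImplicit false

namespace Pool.Agent.Results.MP_60ec62_ag.HalfOfAllTypes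

open NumberField Module Pool.Agent.H204R3.CM Pool.Agent.H977R3.CM Pool.Agent.TH170
  Pool.Agent.Q29.EP Pool.Agent.Run7.h879.HA

open Pool.Agent.W495.TA Pool.Agent.W547.KB Pool.Agent.TH117.F5 Pool.Agent.R299.CRY

open scoped TensorProduct

/-- Both forms of the crystalline Tate conjecture for all abelian varieties with the slope types `Φ`. -/
def Holds {p : ℕ} [Fact p.Prime] (ν : PadicAlgCl p ≃+* ℂ) {I : Type} (K : I → Type)
    [∀ i, Field (K i)] (M : ∀ i, (K i →+* ℂ) → ℤ) (Φ : ∀ i, Set (K i →+* ℂ)) : Prop :=
  ∀ Y : RedAV p ν, GS.OfTypes K M Φ Y → ∀ s : ℕ, 0 < s →
    ∀ (K₀ Ω V₀ : Type) [Field K₀] [CharZero K₀] [Field Ω] [IsAlgClosed Ω] [CharZero Ω]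
      [Algebra K₀ Ω] [AddCommGroup V₀] [Module K₀ V₀] [FiniteDimensional K₀ V₀]
      (F₀ : V₀ →ₗ[K₀] V₀) (e : (Ω ⊗[K₀] V₀) ≃ₗ[Ω] TM Ω Y) (σ : K₀ ≃+* K₀) (Ψ : V₀ → V₀),
      IsCrystalline Y s F₀ e → IsSemilinearFrobenius (Y.a * s) σ Ψ F₀ →
        ∀ (m : ℕ) (Cyc : Set (V₀ [⋀^Fin (2 * m)]→ₗ[K₀] K₀)), (∀ c ∈ Cyc, IsFrobFixed p σ Ψ c) →
          ContainsAlg s F₀ e (Submodule.span K₀ Cyc) →
            ∀ f : V₀ [⋀^Fin (2 * m)]→ₗ[K₀] K₀,
              (IsTateCrys F₀ ((p ^ Y.a) ^ s) m f → f ∈ Submodule.span K₀ Cyc) ∧
                (IsFrobFixed p σ Ψ f → FixedSpan σ Cyc f)

/-- The property `Holds` of the families of slope types. -/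
def Q : TypeProperty := fun _ _ ν _ _ K _ _ _ M Φ => Holds ν K M Φ

theorem holds_of {p : ℕ} [Fact p.Prime] {ν : PadicAlgCl p ≃+* ℂ} {I : Type} (K : I → Type)
    [∀ i, Field (K i)] (M : ∀ i, (K i →+* ℂ) → ℤ) (Φ : ∀ i, Set (K i →+* ℂ))
    (h : ∀ Y : RedAV p ν, GS.OfTypes K M Φ Y → ∃ Z : RedAV p ν,
      TH117.BL.HasElementaryRelations Z ∧ TH117.BL.IsPowersTimesSupersingular Z Y) :
    Holds ν K M Φ := by
  intro Y hY s hs K₀ Ω V₀ _ _ _ _ _ _ _ _ _ F₀ e σ Ψ he hΨ m Cyc hC hA f
  obtain ⟨Z, h1, h2⟩ := h Y hY
  exact Pool.Agent.R299.CRY2.main_elem h1 h2 s hs F₀ e he σ Ψ hΨ Cyc hC hA f

/-- **Both forms of the crystalline Tate conjecture for all abelian varieties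
with one half of all slope types of every CM field of degree `2 r ^ k`.** -/
theorem result : HalfOfAll Q ∧ MostWithWeightsOne Q ∧ OneOfTwo Q ∧ SixteenPercent Q :=
  four (of_elementary fun _ _ _ _ _ K _ _ _ M Φ h => holds_of K M Φ h)

end Pool.Agent.Results.MP_60ec62_ag.HalfOfAllTypes
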