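import Pool.Agent.Run7.h142.CE.Prime

/-!
# The crystalline Tate conjecture for all products follows from small products and one prime `ℓ`

The setting. Let `W` be the `ℓ`-adic cohomology, for one prime `ℓ ≠ p`, and `W'` the crystalline
cohomology, of the smooth projective varieties over the algebraic closure of the field with `p`
elements, with coefficients extended to the algebraic closures of `ℚ_ℓ` and of `ℚ_p` (or the other way
round, or the cohomologies for two primes `ℓ`, `ℓ'`). Let `C j` be smooth projective varieties which
are like all curves (`IsComplete`): the cohomology is generated by the classes of algebraic cycles and
by `H¹`, an algebraic class defines a nondegenerate form on `H¹`, and each possible Newton function of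
weight one occurs in `H¹` of one of the `C j`. By the theorem of Honda this is true for the family of
all curves, and of all abelian varieties. Let `X i` be any smooth projective varieties whose cohomology
is generated, as an algebra, by the classes of algebraic cycles and by the cohomology in the degrees
`d ≤ D i`, for instance with `D i = dim X i` (hard Lefschetz theorem). The *small products* are
* the products `X i × C j × ... × C j'` with `m ≤ D i` factors `C j`, in codimension `m`,
* the products `C j₁ × C j₂ × C j₃ × C j₄` in codimension two.

**Theorem.**
1. *The crystalline Tate conjecture and the semisimplicity of the crystalline Frobenius at `q ^ m` hold,
   in all codimensions `m`, for all varieties which are dominated by products of any number of the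
   varieties `X i` and `C j`, if and only if the `ℓ`-adic Tate conjecture with semisimplicity holds, for
   one prime `ℓ`, for the small products.*
2. *If the `ℓ`-adic Frobenius is semisimple on `H¹ (C j)` (for curves and abelian varieties a theorem of
   Weil) and on `H ^ d (X i)` for `d ≤ D i`, then the `ℓ`-adic Tate conjecture (without semisimplicity) for
   the small products is enough.*
3. *If it holds then crystalline homological equivalence is numerical equivalence on all dominated
   varieties.*

In particular:
* (no `X i`) **if for one prime `ℓ` the `ℓ`-adic Tate conjecture is true in codimension two for the
  products of four curves then the crystalline Tate conjecture is true in all codimensions for all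
  varieties which are dominated by products of curves, among them all abelian varieties, and for these
  varieties crystalline homological equivalence is numerical equivalence; and conversely the
  crystalline Tate conjecture in codimension two for the products of four curves implies the `ℓ`-adic
  conjecture for all primes `ℓ` and all these varieties.**
* (surfaces) The crystalline Tate conjecture for all products of any number of surfaces, curves and
  abelian varieties follows from the `ℓ`-adic Tate conjecture with semisimplicity, for one `ℓ`, for the
  products of a surface and `m ≤ 2` curves in the codimension `m`.

In contrast to the statement for varieties of dimension at most three (see the problem file) the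
varieties on the left hand side have any dimension, the codimension is arbitrary, and only one or two
codimensions have to be considered on the right hand side; in particular it is not assumed that
homological and numerical equivalence agree, and nothing is assumed about the `ℓ`-adic Tate conjecture for
the dominated varieties themselves.

The hypotheses (`IsSuitable`): the Riemann hypothesis for both cohomologies (Deligne; Katz and Messing),
and the properties of the `C j` and `X i` above for both cohomologies. `SameZeta`: both cohomologies
define the same zeta functions (Lefschetz trace formula). The Weil numbers are in the field `K`, which
is embedded in both fields of coefficients.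

The proof. The Tate conjecture with semisimplicity for the small products implies the formula for the
order of the poles of the zeta functions of the small products: homological and numerical equivalence
agree on all dominated varieties if the small products satisfy the Tate conjecture with semisimplicity
(`homEqNum_all`; this is not the argument of Tate and Katz-Messing in one variety, but uses the
generation of all Tate classes by small ones). The formula for the order of the poles does not depend
on the cohomology, and by the criterion of Tate it implies the Tate conjecture with semisimplicity for
the small products in the other cohomology. Then the Tate classes of the dominated varieties in this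
cohomology are generated by the small ones (`MP_0f183b_ag.SmallProductsSuffice`).

Earlier work: Tate (the criterion with the order of the pole), Honda, Milne (Motives over finite
fields; Lefschetz motives and the Tate conjecture), Hazama (On the general Hodge conjecture for abelian
varieties of CM-type: codimension two suffices), Katz and Messing (independence of `ℓ` of the zeta
function).
-/

set_option autoImplicit false

open CategoryTheory AlgebraicGeometry

universe u v v' w w'

namespace Pool.Agent.Results.MP_60ec62_ag.OnePrimeSmallProducts

open Pool.Agent.H914 Pool.Agent.W534 Pool.Agent.Run7.h142.GT Pool.Agent.Run7.h142.CE VarClass Obj
  WeilCohomology

/-- **The Tate conjecture with semisimplicity, for the cohomology `W'` (for instance crystalline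
cohomology), for all varieties dominated by products of the `X i` and `C j`, is equivalent to the one
for the small products and the cohomology `W` (for instance for one prime `ℓ`).** -/
theorem result {k : Type u} [Field k] {𝒱 : VarClass k} {ops : CycleOps 𝒱}
    (W : WeilCohomology.{u, v} ops) (W' : WeilCohomology.{u, v'} ops) (p : ℕ) [Fact p.Prime]
    (Φ : FrobSystem W p) (Φ' : FrobSystem W' p) (τ : W.K →+* ℂ) (τ' : W'.K →+* ℂ) (K : Type)
    [Field K] [CharZero K] [Algebra.IsAlgebraic ℚ K] (σ : K →+* W.K) (σ' : K →+* W'.K)
    (c : K →+* K) (Λ : AddSubgroup ℝ) (hΛ : (1 / 2 : ℝ) ∈ Λ) {J : Type w} (C : J → 𝒱.Obj)
    {I : Type w'} (X : I → 𝒱.Obj) (D : I → ℕ) (h : IsSuitable Φ τ σ c Λ C X D)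
    (h' : IsSuitable Φ' τ' σ' c Λ C X D) (hz : SameZeta Φ τ Φ' τ') :
    (TateForDominated Φ' C X ↔ StrongTateForSmall Φ C X D) ∧
    ((∀ j, IsSemisimple Φ 1 (C j)) → (∀ i, IsSemisimple Φ (D i) (X i)) →
      (TateForDominated Φ' C X ↔ TateForSmall Φ C X D)) ∧
    (StrongTateForSmall Φ C X D → ∀ Y, IsDominatedBy W' C X Y → HomEqNum W' Y) :=
  ⟨dominated_iff_small hΛ h h' hz, dominated_iff_small_one hΛ h h' hz,
    fun hT _ hY => homEqNum_of_small hΛ h h' hz hT hY⟩

end Pool.Agent.Results.MP_60ec62_ag.OnePrimeSmallProducts
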