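import Mathlib
import Pool.Agent.Run7.h479.SO.TB
import Pool.Agent.Run7.h479.SO.Criteria
import Pool.Agent.R299.CRY2.Main

/-!
# The crystalline Tate conjecture for abelian varieties over finite fields whose slopes on a half
orbit do not sum to a sum of prime divisors of the dimension

Over an algebraic closure of the field with `p` elements each abelian variety is isogenous to the
reduction of an abelian variety of CM type (Honda, Tate). So an abelian variety over the field with
`p ^ b` elements is modelled by `RedAV`: a finite product of CM types `(E l, Φ l)` with Weil numbers
in `E l` (the Frobenius endomorphism) that satisfy the formula of Shimura and Taniyama; its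
cohomology of degree `n`, with coefficients in an algebraically closed field `Ω`, consists of the
alternating `n`-forms on `Ω ⊗ H_1`, on which the Frobenius endomorphism acts by the Weil numbers. We
fix an isomorphism `ν` of the algebraic closure of `ℚ_p` with `ℂ`; it defines a `p`-adic valuation of
`ℂ`, with the value one at `p`.

Let `π i` be finitely many Weil numbers for `q = p ^ a` in CM fields `F i` of degree `2 n i`, with
`π i * conj (π i) = q`. They belong to isogeny classes of simple abelian varieties `A i` over the
field with `q` elements. Let `𝒞` (`PowersOf π`) be the class of the abelian varieties `Y` over finite
fields of characteristic `p` each of whose factors is supersingular or has a Frobenius endomorphism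
some power of which is a power of `π i` for some `i`. So `Y` is, over an algebraic closure, isogenous
to a product of powers of the abelian varieties `A i` (of any exponents) and of a supersingular
abelian variety; the class contains all products of powers of its members, and the products of its
members with supersingular abelian varieties. The starting results need one of: large Galois groups,
degrees that are (twice) powers of a prime number, or almost all slope types. Here the degrees are
arbitrary and the Galois groups may be as small as cyclic groups. We assume:

* (`HalfOrbit`) There is a set `O` of complex embeddings of `F i`, one of each pair of complex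
  conjugate embeddings, which is an orbit of a group of automorphisms of `ℂ` that acts on `O`
  through a commutative group. By Chebotarev's density theorem it is enough that some prime number is
  inert in the maximal real subfield of `F i` and splits in `F i` (then one automorphism generates a
  group with such an orbit; this is proved in the file `Criteria.lean`). If `F i` contains an
  imaginary quadratic field `E`, it is enough that some prime number is inert in the maximal real
  subfield (whose normal closure is real, and so linearly disjoint from `E`), and `O` is the set of
  the embeddings that extend a given embedding of `E`.
* (`GoodSlopes`) We write `cdev ν a x φ = 2 ord_p (x) - a` for the deviation of the slope of `x` at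
  the embedding `φ` from the middle, where an isomorphism `ν` of the algebraic closure of `ℚ_p` with
  `ℂ` makes `φ` a `p`-adic embedding. For some `ν` the sum of the deviations of `π i` over `O` is not
  zero; and for some `ν` the deviations of `π i` on `O` are `b w + c` with real numbers `b ≠ 0`, `c`
  and natural numbers `w`, such that **the sum `k` of the numbers `w` over `O` is not a sum of prime
  divisors of `n i`** (with repetitions; `0` is the empty sum).
* (`Separated`, only if there are several fields) For `i ≠ i'` some automorphism acts on the complex
  embeddings of each of the fields as `1` or as the complex conjugation, as `1` for `F i` and as the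
  complex conjugation for `F i'`.

For instance let there be one field and let the slopes be `λ` and `1 - λ` only, `λ ≠ 1/2` (`λ = 0` is
the ordinary case). Then `w` can be the characteristic function of the set of the embeddings in `O`
with slope `1 - λ`, and `k` is the number of these embeddings; by the same argument for the
complement, it is enough that `k` or `n - k` is not a sum of prime divisors of `n` (and `2 k ≠ n`).
For `n = 15` the only signatures `(k, n - k)` which are excluded are those with `k` or `n - k` equal
to `0, 3, 5, 6`. In general the condition is true if `0 < k` is less than all prime divisors of `n`,
and if `k = r s - r - s` and `n` is divisible by no primes other than `r` and `s` (proved in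
`Criteria.lean`). Conversely, the condition cannot be improved for the cyclic group of order `n`: if
`k` is a sum of prime divisors of `n` then it is the sum of the values of a function `w` which is a
sum of characteristic functions of cosets of subgroups of prime order, and the translates of this
`w` do not span the functions on the group.

**Then both forms of the crystalline Tate conjecture are true for all `Y` in `𝒞`, in all degrees, over
all finite extensions of the ground field** (`CrystallineTate`).

This means the following. Let `K₀` be the fraction field of the ring of Witt vectors of the field with
`Q = (p ^ b) ^ s` elements, with its Frobenius automorphism `σ`; let `V₀` be the dual space of the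
first crystalline cohomology group of `Y` with coefficients in `K₀`, with the semilinear endomorphism
`Ψ` dual to the crystalline Frobenius endomorphism, and the linear Frobenius endomorphism
`F₀ = Ψ ^ (b * s)`. The crystalline cohomology group `H^{2m}(Y)` is the space of alternating forms `f`
of degree `2 m` on `V₀`; the crystalline Frobenius endomorphism maps `f` to `v ↦ σ (f (Ψ v))`. Over an
algebraically closed field `Ω` that contains `K₀` the space `V₀` is identified with `Ω ⊗ H_1`, where
`F₀` is the multiplication by `π ^ s` (`IsCrystalline`; the theorem holds for all fields `K₀` with an
automorphism `σ` whose power `b * s` is trivial). Let `Cyc ⊆ H^{2m}(Y)` be the set of the classes of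
algebraic cycles of codimension `m` over the field with `Q` elements. Then

* each class `f` in `H^{2m}(Y)` with `Fr f = Q ^ m f` is a linear combination of elements of `Cyc` with
  coefficients in `K₀`, and
* each class `f` that is multiplied by `p ^ m` by the crystalline Frobenius endomorphism is a linear
  combination of elements of `Cyc` with coefficients in the fixed field of `σ`, the field of `p`-adic
  numbers.

The theorem uses of `Cyc` only that the crystalline Frobenius endomorphism multiplies its elements by
`p ^ m`, and (`ContainsAlg`) that its linear span over `K₀` contains each class `g` with
`Fr g = Q ^ m g` that belongs, over `Ω`, to the smallest system `Alg` of cohomology classes of abelian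
varieties over finite fields that contains the Tate classes of degree two (which are algebraic by the
theorem of Tate) and the reductions of the Weil classes of imaginary quadratic fields on abelian
fourfolds and sixfolds of split Weil type (Markman), and that is stable under linear combinations, cup
products, pull-backs along homomorphisms and push-forwards along projections.

The proof. Suppose that the product of some powers `φ (π i) ^ m (i, φ)` is a power of `q = p ^ a`, up
to a root of unity. Let `c (i, φ) = m (i, φ) - m (i, conj φ)`. The `p`-adic valuations of the images
under the automorphisms `σ` give `∑ c (i, φ) * cdev (σ φ) = 0`. `Separated` and Dedekind's theorem on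
the linear independence of characters (of the group of the automorphisms acting as `± 1`) give these
relations for every `i` separately. The sum over the orbit `O` and the first slope condition give
`∑_O c = 0`, and then the second slope condition gives `∑_O c (φ) w (σ φ) = 0` for all `σ` in the
group. The commutative transitive group `B` of permutations of `O` is simply transitive, so `w` is a
function on the group `B`, and if `c ≠ 0`, then a Fourier coefficient `∑ w (b) ψ (b)` of `w` for a
character `ψ` of `B` is zero. Its terms are `k` roots of unity of order dividing `n`, and by the
theorem of Lam and Leung (1996) on vanishing sums of roots of unity the number `k` of terms is a sum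
of prime divisors of `n`, a contradiction. The theorem of Lam and Leung is proved in the files `LL`.
So all relations between the Frobenius eigenvalues of `Y` are generated by those of the complex
conjugate pairs and of the supersingular factors.
-/

set_option autoImplicit false

namespace Pool.Agent.Results.MP_60ec62_ag.VanishingSums

open NumberField Module Pool.Agent.W495.TA Pool.Agent.Run7.h479.SO
  Pool.Agent.W547.KB Pool.Agent.TH117.F5 Pool.Agent.R299.CRY
open scoped TensorProduct

/-- Both forms of the crystalline Tate conjecture for the abelian variety `Y`. -/
def CrystallineTate {p : ℕ} [Fact p.Prime] {ν : PadicAlgCl p ≃+* ℂ} (Y : RedAV p ν) : Prop :=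
  ∀ s : ℕ, 0 < s →
    ∀ (K₀ Ω V₀ : Type) [Field K₀] [CharZero K₀] [Field Ω] [IsAlgClosed Ω] [CharZero Ω]
      [Algebra K₀ Ω] [AddCommGroup V₀] [Module K₀ V₀] [FiniteDimensional K₀ V₀]
      (F₀ : V₀ →ₗ[K₀] V₀) (e : (Ω ⊗[K₀] V₀) ≃ₗ[Ω] TM Ω Y) (σ : K₀ ≃+* K₀) (Ψ : V₀ → V₀),
      IsCrystalline Y s F₀ e → IsSemilinearFrobenius (Y.a * s) σ Ψ F₀ →
        ∀ (m : ℕ) (Cyc : Set (V₀ [⋀^Fin (2 * m)]→ₗ[K₀] K₀)), (∀ c ∈ Cyc, IsFrobFixed p σ Ψ c) →
          ContainsAlg s F₀ e (Submodule.span K₀ Cyc) →
            ∀ f : V₀ [⋀^Fin (2 * m)]→ₗ[K₀] K₀,
              (IsTateCrys F₀ ((p ^ Y.a) ^ s) m f → f ∈ Submodule.span K₀ Cyc) ∧
                (IsFrobFixed p σ Ψ f → FixedSpan σ Cyc f)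

/-- **The crystalline Tate conjecture for abelian varieties over finite fields whose slopes on a
half orbit do not sum to a sum of prime divisors of the dimension.** -/
theorem result (p : ℕ) [Fact p.Prime] (ν : PadicAlgCl p ≃+* ℂ) (a : ℕ) (ha : 0 < a)
    (ι : Type) [Fintype ι] (F : ι → Type) [∀ i, Field (F i)] [∀ i, NumberField (F i)]
    [∀ i, IsCMField (F i)] (π : ∀ i, F i)
    (hweil : ∀ i, π i * IsCMField.complexConj (F i) (π i) = (p : F i) ^ a)
    (hsep : Separated F) (hgood : ∀ i, GoodSlopes p a (π i))
    (Y : RedAV p ν) (hY : PowersOf π Y) :
    CrystallineTate Y :=
  fun s hs _ _ _ _ _ _ _ _ _ _ _ _ F₀ e σ Ψ he hΨ _ Cyc hC hA f =>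
    Pool.Agent.R299.CRY2.main_elem (elementary_of_good hweil hsep hgood ha hY) (self_powers Y) s hs
      F₀ e he σ Ψ hΨ Cyc hC hA f

end Pool.Agent.Results.MP_60ec62_ag.VanishingSums
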